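import Pool.Agent.H.MP_a7d15e_an.C

namespace Pool.Agent.Results.MP_a7d15e_an.Yes

def slice {X : Type} [NormedAddCommGroup X] [NormedSpace ℝ X] (f : StrongDual ℝ X) (α : ℝ) :
    Set X := {x | ‖x‖ ≤ 1 ∧ 1 - α < f x}

def SSD2P (X : Type) [NormedAddCommGroup X] [NormedSpace ℝ X] : Prop :=
  ∀ (n : ℕ) (f : Fin n → StrongDual ℝ X) (α : Fin n → ℝ), (∀ i, ‖f i‖ = 1) → (∀ i, 0 < α i) →
    ∀ ε : ℝ, 0 < ε → ∃ (x : Fin n → X) (y : X), ‖y‖ ≤ 1 ∧ 1 - ε < ‖y‖ ∧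
      ∀ i, x i ∈ slice (f i) (α i) ∧ x i + y ∈ slice (f i) (α i) ∧ x i - y ∈ slice (f i) (α i)

open Pool.Agent.H.MP_a7d15e_an

theorem bad {Z : Type} [NormedAddCommGroup Z] [NormedSpace ℝ Z] (hZ : Bad Z) : ¬ SSD2P Z := by
  intro h
  obtain ⟨F, hF, hG⟩ := hZ
  obtain ⟨x, y, -, h2, h3⟩ := h 1 (fun _ => F) (fun _ => 1 / 4) (fun _ => hF)
    (fun _ => by norm_num) (1 / 2) (by norm_num)
  obtain ⟨-, ⟨a1, a2⟩, ⟨b1, b2⟩⟩ := h3 0
  have := hG (x 0) y a1 b1 (by linarith) (by linarith)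
  linarith

theorem result : ∃ (X : Type) (_ : NormedAddCommGroup X) (_ : NormedSpace ℝ X)
    (_ : CompleteSpace X), SSD2P X ∧ ¬ SSD2P (StrongDual ℝ (StrongDual ℝ X)) := by
  obtain ⟨E, i1, i2, i3, e, he⟩ := space
  refine ⟨E, i1, i2, i3, fun n f α hf hα ε hε => ?_, fun h => ?_⟩
  · obtain ⟨x, y, hy, hx⟩ := ssd e he n f α hf hα
    refine ⟨x, y, hy.le, by linarith, fun i => ⟨?_, ?_, ?_⟩⟩
    · have := hx i 0 (by simp)
      rwa [zero_smul, add_zero] at this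
    · have := hx i 1 (by simp)
      rwa [one_smul] at this
    · have := hx i (-1) (by simp)
      rwa [neg_smul, one_smul, ← sub_eq_add_neg] at this
  · exact bad (bid2 e he) h

end Pool.Agent.Results.MP_a7d15e_an.Yes
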